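import Pool.Agent.Lib.MP_5349a4_pr.M.H22.Vol

/-!
# Module PTW (5.6): pointwise bound of the two-point function (helper22)
-/

set_option autoImplicit false
open MeasureTheory Set
open scoped ENNReal NNReal

namespace Pool.Agent.Lib.MP_5349a4_pr.H22

open Pool.Agent.Lib.MP_5349a4_pr

variable {d : ℕ}

/-- the mean number of cluster points of `0` in the ball `B_1(z)` -/
noncomputable def qq (lam : ℝ≥0) (n : ℝ) (z : Eu d) : ℝ≥0∞ :=
  lam * ∫⁻ w in bal (0 : Eu d) n ∩ bal z 1, tau lam (bal 0 n) 0 w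

theorem qq_iso (T : TauFacts d) (lam : ℝ≥0) (n : ℝ) (z : Eu d) (e : Eu d ≃ₗᵢ[ℝ] Eu d) :
    qq lam n (e z) = qq lam n z := by
  unfold qq
  congr 1
  have hmp : MeasurePreserving e (volume : Measure (Eu d)) volume := e.measurePreserving
  have hset : bal (0 : Eu d) n ∩ bal z 1 = e ⁻¹' (bal (0 : Eu d) n ∩ bal (e z) 1) := by
    ext w
    simp only [bal, mem_inter_iff, Metric.mem_closedBall, mem_preimage, dist_zero_right]
    rw [e.norm_map, e.dist_map]
  rw [hset, ← hmp.setLIntegral_comp_preimage_emb e.toHomeomorph.measurableEmbedding]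
  refine lintegral_congr fun w => ?_
  have himg : (e : Eu d → Eu d) '' bal (0 : Eu d) n = bal (0 : Eu d) n := by
    have := e.toIsometryEquiv.image_closedBall (0 : Eu d) n
    simp [bal]
  have := T.iso lam (bal 0 n) 0 w e.toIsometryEquiv (dom_bal _ _)
  have e0 : e.toIsometryEquiv (0 : Eu d) = 0 := by simp
  rw [e0] at this
  rw [← this]
  have himg' : (e.toIsometryEquiv : Eu d → Eu d) '' bal (0 : Eu d) n = bal (0 : Eu d) n := himg
  rw [himg']
  rfl

/-- a linear isometry moving `z` to a positive multiple of `z'` -/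
theorem exists_iso (z z' : Eu d) (hz' : z' ≠ 0) :
    ∃ e : Eu d ≃ₗᵢ[ℝ] Eu d, dist (e z) z' = |‖z'‖ - ‖z‖| := by
  set w : Eu d := (‖z‖ / ‖z'‖) • z' with hw
  have hn : ‖z'‖ ≠ 0 := norm_ne_zero_iff.2 hz'
  have hnw : ‖z‖ = ‖w‖ := by
    rw [hw, norm_smul, Real.norm_of_nonneg (by positivity)]
    field_simp
  refine ⟨(Submodule.span ℝ {z - w})ᗮ.reflection, ?_⟩
  have h1 : (Submodule.span ℝ {z - w})ᗮ.reflection z = w := Submodule.reflection_sub hnw
  rw [h1, dist_eq_norm]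
  have h2 : w - z' = (‖z‖ / ‖z'‖ - 1) • z' := by
    rw [hw, sub_smul, one_smul]
  rw [h2, norm_smul, Real.norm_eq_abs]
  have h3 : ‖z‖ / ‖z'‖ - 1 = (‖z‖ - ‖z'‖) / ‖z'‖ := by field_simp
  rw [h3, abs_div, abs_of_pos (norm_pos_iff.2 hz'), abs_sub_comm]
  field_simp

theorem qq_le (T : TauFacts d) (lam : ℝ≥0) (n : ℝ) (z z' : Eu d) (h1 : ‖z‖ < ‖z'‖)
    (h2 : ‖z'‖ ≤ ‖z‖ + 1) :
    qq lam n z ≤ lam * ∫⁻ w in bal (0 : Eu d) n, ind (w ∈ bal z' 2) * tau lam (bal 0 n) 0 w := by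
  have hz' : z' ≠ 0 := by
    intro h0
    rw [h0, norm_zero] at h1
    exact absurd h1 (not_lt.2 (norm_nonneg z))
  obtain ⟨e, he⟩ := exists_iso z z' hz'
  rw [← qq_iso T lam n z e]
  unfold qq
  refine mul_le_mul' le_rfl ?_
  have hb : MeasurableSet (bal (e z) 1) := (dom_bal _ _).1
  rw [inter_comm, ← Measure.restrict_restrict hb, ← lintegral_mul_ind hb]
  refine lintegral_mono fun w => ?_
  gcongr
  apply ind_mono
  intro hw
  have hw' : dist w (e z) ≤ 1 := hw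
  have : dist w z' ≤ dist w (e z) + dist (e z) z' := dist_triangle _ _ _
  rw [he, abs_of_pos (by linarith)] at this
  change dist w z' ≤ 2
  linarith

/-- the annulus -/
def ann (d : ℕ) (r : ℝ) : Set (Eu d) := bal (0 : Eu d) (r + 1) \ bal 0 r

theorem ann_meas (r : ℝ) : MeasurableSet (ann d r) := (dom_bal _ _).1.diff (dom_bal _ _).1

theorem mem_ann {r : ℝ} {z : Eu d} (hz : z ∈ ann d r) : r < ‖z‖ ∧ ‖z‖ ≤ r + 1 := by
  have h3 : ‖z‖ ≤ r + 1 := by
    have : dist z 0 ≤ r + 1 := hz.1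
    rwa [dist_zero_right] at this
  have h4 : r < ‖z‖ := by
    have : ¬ dist z 0 ≤ r := hz.2
    rw [dist_zero_right] at this
    exact not_le.1 this
  exact ⟨h4, h3⟩

theorem vol_bal (x : Eu d) (ρ : ℝ) (hρ : 0 ≤ ρ) : volume (bal x ρ) =
    ENNReal.ofReal (ρ ^ d) * volume (bal (0 : Eu d) 1) := by
  have hfr : Module.finrank ℝ (Eu d) = d := by simp
  unfold bal
  rw [Measure.addHaar_closedBall' volume x hρ, hfr]

theorem annulus (hd : 1 ≤ d) (r : ℝ) (hr : 0 ≤ r) :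
    ENNReal.ofReal (r ^ (d - 1)) * volume (bal (0 : Eu d) 1) ≤ volume (ann d r) := by
  have hvtop : volume (bal (0 : Eu d) r) ≠ ∞ := (dom_bal _ _).2.measure_lt_top.ne
  have h1 : volume (bal (0 : Eu d) (r + 1)) ≤ volume (ann d r) + volume (bal (0 : Eu d) r) := by
    refine (measure_mono ?_).trans (measure_union_le _ _)
    intro x hx
    by_cases hxr : x ∈ bal (0 : Eu d) r
    · exact Or.inr hxr
    · exact Or.inl ⟨hx, hxr⟩
  have h2 : ENNReal.ofReal (r ^ (d - 1)) * volume (bal (0 : Eu d) 1) + volume (bal (0 : Eu d) r) ≤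
      volume (bal (0 : Eu d) (r + 1)) := by
    rw [vol_bal 0 r hr, vol_bal 0 (r + 1) (by linarith), ← add_mul]
    refine mul_le_mul' ?_ le_rfl
    rw [← ENNReal.ofReal_add (by positivity) (by positivity)]
    apply ENNReal.ofReal_le_ofReal
    obtain ⟨m, rfl⟩ : ∃ m, d = m + 1 := ⟨d - 1, by omega⟩
    rw [Nat.add_sub_cancel]
    have h3 : r ^ m ≤ (r + 1) ^ m := by gcongr; linarith
    calc r ^ m + r ^ (m + 1) = r ^ m * (r + 1) := by ring
      _ ≤ (r + 1) ^ m * (r + 1) := by gcongr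
      _ = (r + 1) ^ (m + 1) := by ring
  exact (ENNReal.add_le_add_iff_right hvtop).1 (h2.trans h1)

theorem tau_meas (T : TauFacts d) (lam : ℝ≥0) (n : ℝ) :
    Measurable fun w : Eu d => tau lam (bal (0 : Eu d) n) 0 w := by
  have h := T.meas lam (bal 0 n) (dom_bal _ _)
  have h2 : Measurable fun w : Eu d => ((0 : Eu d), w) := measurable_prodMk_left
  have h3 := h.comp h2
  exact h3

theorem ind_meas2 : Measurable fun p : Eu d × Eu d => ind (p.2 ∈ bal p.1 2) := by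
  apply measurable_ind
  unfold bal
  simp only [Metric.mem_closedBall]
  exact measurableSet_le (measurable_snd.dist measurable_fst) measurable_const

theorem e1 (T : TauFacts d) (lam : ℝ≥0) (n : ℝ) (z : Eu d) :
    volume (ann d ‖z‖) * qq lam n z ≤
      ∫⁻ z' in ann d ‖z‖, lam * ∫⁻ w in bal (0 : Eu d) n,
        ind (w ∈ bal z' 2) * tau lam (bal 0 n) 0 w := by
  rw [mul_comm, ← setLIntegral_const]
  refine setLIntegral_mono' (ann_meas _) fun z' hz' => ?_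
  obtain ⟨h4, h3⟩ := mem_ann hz'
  exact qq_le T lam n z z' h4 h3

theorem fub {α β : Type} [MeasurableSpace α] [MeasurableSpace β] {μ : Measure α} {ν : Measure β}
    [SFinite μ] [SFinite ν] (K : α → β → ℝ≥0∞) (hK : Measurable fun p : α × β => K p.1 p.2)
    (t : β → ℝ≥0∞) (ht : Measurable t) (c : ℝ≥0∞) :
    ∫⁻ a, c * ∫⁻ b, K a b * t b ∂ν ∂μ = c * ∫⁻ b, (∫⁻ a, K a b ∂μ) * t b ∂ν := by
  have hm : Measurable fun p : α × β => K p.1 p.2 * t p.2 := hK.mul (ht.comp measurable_snd)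
  have h1 : Measurable fun a => ∫⁻ b, K a b * t b ∂ν := hm.lintegral_prod_right'
  rw [lintegral_const_mul _ h1, lintegral_lintegral_swap hm.aemeasurable]
  congr 1
  refine lintegral_congr fun b => ?_
  rw [lintegral_mul_const]
  exact hK.comp (measurable_prodMk_right (y := b))

theorem e2 (T : TauFacts d) (lam : ℝ≥0) (n r : ℝ) :
    ∫⁻ z' in ann d r, lam * ∫⁻ w in bal (0 : Eu d) n,
        ind (w ∈ bal z' 2) * tau lam (bal 0 n) 0 w =
      lam * ∫⁻ w in bal (0 : Eu d) n, (∫⁻ z' in ann d r, ind (w ∈ bal z' 2)) *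
        tau lam (bal 0 n) 0 w := by
  exact fub (μ := volume.restrict (ann d r)) (ν := volume.restrict (bal (0 : Eu d) n))
    (fun z' w => ind (w ∈ bal z' 2)) ind_meas2 (fun w => tau lam (bal 0 n) 0 w)
    (tau_meas T lam n) lam

theorem e3 (l : ℕ) (hl : 1 ≤ l) (r : ℝ) (h2 : r < 2 ^ (l + 1)) (w : Eu d) :
    ∫⁻ z' in ann d r, ind (w ∈ bal z' 2) ≤
      ind (w ∈ bal (0 : Eu d) (2 ^ (l + 2))) * (2 ^ d * volume (bal (0 : Eu d) 1)) := by
  by_cases hw : w ∈ bal (0 : Eu d) (2 ^ (l + 2))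
  · rw [ind_of hw, one_mul]
    have hv : volume (bal w 2) = 2 ^ d * volume (bal (0 : Eu d) 1) := by
      rw [vol_bal w 2 (by norm_num), ENNReal.ofReal_pow (by norm_num)]
      norm_num
    calc ∫⁻ z' in ann d r, ind (w ∈ bal z' 2) ≤ ∫⁻ z', ind (w ∈ bal z' 2) :=
          setLIntegral_le_lintegral _ _
      _ = ∫⁻ z', ind (z' ∈ bal w 2) := by
          refine lintegral_congr fun z' => ind_congr ?_
          unfold bal
          rw [Metric.mem_closedBall, Metric.mem_closedBall, dist_comm]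
      _ = volume (bal w 2) := by
          rw [lintegral_ind (p := fun z' => z' ∈ bal w 2) (dom_bal _ _).1]
          rfl
      _ = _ := hv
  · rw [ind_not hw, zero_mul]
    have hl2 : (2 : ℝ) ≤ 2 ^ l := by
      calc (2 : ℝ) = 2 ^ 1 := (pow_one 2).symm
        _ ≤ 2 ^ l := pow_le_pow_right₀ (by norm_num) hl
    have : ∫⁻ z' in ann d r, ind (w ∈ bal z' 2) = ∫⁻ z' in ann d r, 0 := by
      refine setLIntegral_congr_fun (ann_meas r) fun z' hz' => ?_
      refine ind_not ?_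
      intro hwz
      apply hw
      have h3 : dist z' 0 ≤ r + 1 := hz'.1
      have h4 : dist w z' ≤ 2 := hwz
      have h5 : dist w 0 ≤ dist w z' + dist z' 0 := dist_triangle _ _ _
      change dist w 0 ≤ 2 ^ (l + 2)
      have h6 : (2 : ℝ) ^ (l + 2) = 2 ^ (l + 1) + 2 * 2 ^ l := by ring
      rw [h6]
      linarith
    rw [this]
    simp

theorem e4 (hVst : VstStatement) (hd : 29 ≤ d) (T : TauFacts d) (lam : ℝ≥0) (H : Hyp d lam)
    (n r : ℝ) (l : ℕ) (hl : 1 ≤ l) (h2 : r < 2 ^ (l + 1)) :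
    lam * ∫⁻ w in bal (0 : Eu d) n, (∫⁻ z' in ann d r, ind (w ∈ bal z' 2)) *
        tau lam (bal 0 n) 0 w ≤
      (2 ^ d * volume (bal (0 : Eu d) 1)) * (Gam d : ℝ≥0∞) ^ (l + 11) := by
  have htm := tau_meas T lam n
  have h3 := hVst d hd T lam H (l + 2) (bal 0 n) 0 0 (dom_bal _ _)
  have h4 : lam * ∫⁻ w in bal (0 : Eu d) n,
      tau lam (bal 0 n) 0 w * ind (w ∈ bal (0 : Eu d) (2 ^ (l + 2))) ≤
      (Gam d : ℝ≥0∞) ^ (l + 11) := by
    refine le_trans ?_ h3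
    unfold wt
    exact le_add_self
  calc lam * ∫⁻ w in bal (0 : Eu d) n, (∫⁻ z' in ann d r, ind (w ∈ bal z' 2)) *
        tau lam (bal 0 n) 0 w
      ≤ lam * ∫⁻ w in bal (0 : Eu d) n, (2 ^ d * volume (bal (0 : Eu d) 1)) *
          (tau lam (bal 0 n) 0 w * ind (w ∈ bal (0 : Eu d) (2 ^ (l + 2)))) := by
        refine mul_le_mul' le_rfl (lintegral_mono fun w => ?_)
        calc (∫⁻ z' in ann d r, ind (w ∈ bal z' 2)) * tau lam (bal 0 n) 0 w
            ≤ (ind (w ∈ bal (0 : Eu d) (2 ^ (l + 2))) * (2 ^ d * volume (bal (0 : Eu d) 1))) *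
                tau lam (bal 0 n) 0 w := mul_le_mul' (e3 l hl r h2 w) le_rfl
          _ = _ := by ring
    _ = (2 ^ d * volume (bal (0 : Eu d) 1)) * (lam * ∫⁻ w in bal (0 : Eu d) n,
          tau lam (bal 0 n) 0 w * ind (w ∈ bal (0 : Eu d) (2 ^ (l + 2)))) := by
        rw [lintegral_const_mul]
        · ring
        · exact htm.mul (measurable_ind (dom_bal _ _).1)
    _ ≤ _ := mul_le_mul' le_rfl h4

theorem ptw_main (hVst : VstStatement) (hd : 29 ≤ d) (T : TauFacts d) (lam : ℝ≥0) (H : Hyp d lam)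
    (n : ℝ) (z : Eu d) (l : ℕ) (hl : 1 ≤ l) (h1 : 2 ^ l ≤ ‖z‖) (h2 : ‖z‖ < 2 ^ (l + 1)) :
    tau lam (bal 0 n) 0 z * ENNReal.ofReal (‖z‖ ^ (d - 1)) ≤
      2 ^ d * (Gam d : ℝ≥0∞) ^ (l + 11) := by
  have hl2 : (2 : ℝ) ≤ 2 ^ l := by
    calc (2 : ℝ) = 2 ^ 1 := (pow_one 2).symm
      _ ≤ 2 ^ l := pow_le_pow_right₀ (by norm_num) hl
  -- tau ≤ q
  have htq : tau lam (bal 0 n) 0 z ≤ qq lam n z := by
    have := T.union lam (bal 0 n) 0 z (dom_bal _ _)
    rw [ind_not (by rw [dist_zero_left]; linarith), zero_add] at this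
    exact this
  have hann := annulus (d := d) (by omega) ‖z‖ (norm_nonneg z)
  have f1 := e1 T lam n z
  have f2 := e2 T lam n ‖z‖
  have f4 := e4 hVst hd T lam H n ‖z‖ l hl h2
  have hv0 : volume (bal (0 : Eu d) 1) ≠ 0 :=
    (Metric.measure_closedBall_pos volume (0 : Eu d) one_pos).ne'
  have hvt : volume (bal (0 : Eu d) 1) ≠ ∞ := (dom_bal (0 : Eu d) 1).2.measure_lt_top.ne
  generalize volume (bal (0 : Eu d) 1) = v at *
  generalize tau lam (bal 0 n) 0 z = t at *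
  generalize qq lam n z = q at *
  rw [f2] at f1
  have f5 := f1.trans f4
  generalize volume (ann d ‖z‖) = A at *
  generalize ENNReal.ofReal (‖z‖ ^ (d - 1)) = R at *
  have e5 : v * (t * R) ≤ v * (2 ^ d * (Gam d : ℝ≥0∞) ^ (l + 11)) := by
    calc v * (t * R) ≤ v * (q * R) := mul_le_mul' le_rfl (mul_le_mul' htq le_rfl)
      _ = (R * v) * q := by ring
      _ ≤ A * q := mul_le_mul' hann le_rfl
      _ ≤ _ := f5
      _ = _ := by ring
  exact (ENNReal.mul_le_mul_iff_right hv0 hvt).1 e5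

theorem Gam_le (hd : 40 ≤ d) : (Gam d : ℝ≥0∞) ≤ 2 ^ (d - 1) := by
  have h : 12800 * d ≤ 2 ^ (d - 1) := by
    induction d, hd using Nat.le_induction with
    | base => norm_num
    | succ m hm ih =>
      have e : m + 1 - 1 = (m - 1) + 1 := by omega
      rw [e, pow_succ]
      omega
  have h2 : Gam d ≤ 2 ^ (d - 1) := by
    unfold Gam
    exact_mod_cast h
  exact_mod_cast h2

/-- Module PTW -/
theorem ptw (_hS : SlbStatement) (hVst : VstStatement) : PtwStatement := by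
  intro d hd T lam H j V x y hV hj hxy
  obtain ⟨n, hn⟩ := hV.2.subset_closedBall x
  have h1 : tau lam V x y ≤ tau lam (bal x n) x y := T.mono lam V _ x y hV (dom_bal _ _) hn
  have h2 : tau lam (bal x n) x y = tau lam (bal 0 n) 0 (y - x) := by
    have := T.iso lam (bal x n) x y (IsometryEquiv.subRight x) (dom_bal _ _)
    have himg : (IsometryEquiv.subRight x : Eu d → Eu d) '' (bal x n) = bal 0 n := by
      unfold bal
      rw [IsometryEquiv.image_closedBall]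
      simp
    rw [himg] at this
    rw [← this]
    simp
  set z : Eu d := y - x with hz
  have hzn : ‖z‖ = dist x y := by rw [hz, dist_comm, dist_eq_norm]
  rw [← hzn] at hxy
  have hj2 : (1 : ℝ) ≤ 2 ^ j := one_le_pow₀ (by norm_num)
  obtain ⟨l, hl1, hl2⟩ := exists_nat_pow_near (hj2.trans hxy) (by norm_num : (1 : ℝ) < 2)
  have hjl : j ≤ l := by
    by_contra hcon
    push Not at hcon
    have : (2 : ℝ) ^ (l + 1) ≤ 2 ^ j := pow_le_pow_right₀ (by norm_num) (by omega)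
    linarith
  have h3 := ptw_main hVst (by omega) T lam H n z l (by omega) hl1 hl2
  have h4 : (2 : ℝ≥0∞) ^ (l * (d - 1)) ≤ ENNReal.ofReal (‖z‖ ^ (d - 1)) := by
    have h5 : ((2 : ℝ) ^ l) ^ (d - 1) ≤ ‖z‖ ^ (d - 1) := by gcongr
    calc (2 : ℝ≥0∞) ^ (l * (d - 1)) = ENNReal.ofReal (((2 : ℝ) ^ l) ^ (d - 1)) := by
          rw [← pow_mul, ENNReal.ofReal_pow (by norm_num)]
          norm_num
      _ ≤ _ := ENNReal.ofReal_le_ofReal h5
  have h6 : tau lam (bal 0 n) 0 z * 2 ^ (l * (d - 1)) ≤ 2 ^ d * (Gam d : ℝ≥0∞) ^ (l + 11) :=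
    le_trans (by gcongr) h3
  obtain ⟨k, rfl⟩ : ∃ k, l = j + k := ⟨l - j, by omega⟩
  have hG := Gam_le hd
  have hG1 : (1 : ℝ≥0∞) ≤ Gam d := by
    have : (1 : ℝ≥0) ≤ Gam d := by
      unfold Gam
      have hd' : (1 : ℝ≥0) ≤ d := by exact_mod_cast (by omega : 1 ≤ d)
      calc (1 : ℝ≥0) ≤ 12800 * 1 := by norm_num
        _ ≤ 12800 * d := by gcongr
    exact_mod_cast this
  have hGk : (Gam d : ℝ≥0∞) ^ k ≤ 2 ^ (k * (d - 1)) := by
    calc (Gam d : ℝ≥0∞) ^ k ≤ (2 ^ (d - 1)) ^ k := by gcongr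
      _ = 2 ^ (k * (d - 1)) := by rw [← pow_mul, mul_comm]
  have h7 : (tau lam (bal 0 n) 0 z * 2 ^ (j * (d - 1))) * 2 ^ (k * (d - 1)) ≤
      (2 ^ d * (Gam d : ℝ≥0∞) ^ (j + 11)) * 2 ^ (k * (d - 1)) := by
    calc (tau lam (bal 0 n) 0 z * 2 ^ (j * (d - 1))) * 2 ^ (k * (d - 1))
        = tau lam (bal 0 n) 0 z * 2 ^ ((j + k) * (d - 1)) := by
          rw [mul_assoc, ← pow_add, ← add_mul]
      _ ≤ 2 ^ d * (Gam d : ℝ≥0∞) ^ (j + k + 11) := h6
      _ = (2 ^ d * (Gam d : ℝ≥0∞) ^ (j + 11)) * (Gam d : ℝ≥0∞) ^ k := by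
          rw [mul_assoc, ← pow_add]
          congr 2
          ring
      _ ≤ _ := by gcongr
  have h8 : tau lam (bal 0 n) 0 z * 2 ^ (j * (d - 1)) ≤ 2 ^ d * (Gam d : ℝ≥0∞) ^ (j + 11) :=
    (ENNReal.mul_le_mul_iff_left (by positivity) (ENNReal.pow_ne_top (by norm_num))).1 h7
  calc tau lam V x y * 2 ^ (j * (d - 1)) ≤ tau lam (bal 0 n) 0 z * 2 ^ (j * (d - 1)) := by
        rw [← h2]; gcongr
    _ ≤ 2 ^ d * (Gam d : ℝ≥0∞) ^ (j + 11) := h8
    _ ≤ 2 ^ d * (Gam d : ℝ≥0∞) ^ (j + 12) := by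
        refine mul_le_mul' le_rfl (pow_le_pow_right₀ hG1 (by omega))

end Pool.Agent.Lib.MP_5349a4_pr.H22
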