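import Pool.Agent.Lib.MP_5349a4_pr.M.Iface2
import Pool.Agent.Lib.MP_5349a4_pr.M.Base

/-!
# Modules VOL (5.3) and DEP (5.4) (helper22)
-/

set_option autoImplicit false
open MeasureTheory Set
open scoped ENNReal NNReal

namespace Pool.Agent.Lib.MP_5349a4_pr.H22

open Pool.Agent.Lib.MP_5349a4_pr

variable {d : ℕ}

theorem wt_mono_f (lam : ℝ≥0) (V : Set (Eu d)) {f g : Eu d → ℝ≥0∞} (h : ∀ b, f b ≤ g b)
    (x : Eu d) : wt lam V f x ≤ wt lam V g x := by
  unfold wt
  gcongr with y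
  · exact h x
  · exact h y

theorem wt_le (T : TauFacts d) (lam : ℝ≥0) {V : Set (Eu d)} (hV : Dom V) {f : Eu d → ℝ≥0∞}
    (h : ∀ b, f b ≤ 1) (x : Eu d) : wt lam V f x ≤ 1 + lam * volume V := by
  unfold wt
  gcongr
  · exact h x
  · calc ∫⁻ y in V, tau lam V x y * f y ≤ ∫⁻ _ in V, 1 := by
          refine lintegral_mono fun y => ?_
          calc tau lam V x y * f y ≤ 1 * 1 := mul_le_mul' (T.le_one lam V x y hV) (h y)
            _ = 1 := one_mul _
      _ = volume V := by rw [setLIntegral_one]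

/-- `wt` vanishes if the weight vanishes on the domain and at the starting point -/
theorem wt_zero (lam : ℝ≥0) {V : Set (Eu d)} (hV : Dom V) {f : Eu d → ℝ≥0∞} {x : Eu d}
    (hx : f x = 0) (h : ∀ b ∈ V, f b = 0) : wt lam V f x = 0 := by
  unfold wt
  rw [hx, zero_add]
  have : ∫⁻ y in V, tau lam V x y * f y = 0 := by
    rw [setLIntegral_congr_fun (g := fun _ => 0) hV.1 (fun y hy => by rw [h y hy, mul_zero])]
    simp
  rw [this, mul_zero]

theorem Fr_eq {r : ℝ} {x : Eu d} (h : ‖x‖ ≤ r) :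
    Fr r x = ENNReal.ofReal (Real.sqrt (r + 3 - ‖x‖)) := by
  unfold Fr
  rw [ind_of (by linarith), mul_one]

theorem one_le_Fr {r : ℝ} {x : Eu d} (h : ‖x‖ ≤ r) : 1 ≤ Fr r x := by
  rw [Fr_eq h, ENNReal.one_le_ofReal, Real.one_le_sqrt]
  linarith

theorem sr_nonneg (r : ℝ) (x : Eu d) : 0 ≤ sr r x := by
  unfold sr
  split_ifs with h
  · exact le_rfl
  · push Not at h
    linarith

theorem gd_pos (hd : 1 ≤ d) : 0 < gd d := by
  unfold gd
  have : (0 : ℝ≥0) < d := by exact_mod_cast hd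
  positivity

theorem gd_le_one (hd : 1 ≤ d) : gd d ≤ 1 := by
  unfold gd
  have h1 : (1 : ℝ≥0) ≤ d := by exact_mod_cast hd
  rw [one_div]
  apply inv_le_one_of_one_le₀
  calc (1 : ℝ≥0) ≤ 6400 * 1 := by norm_num
    _ ≤ 6400 * d := by gcongr

/-- comparison with the supersolution of step (5.2) -/
theorem compar_step (hS : SlbStatement) (hT : StepStatement) (hC : ComparStatement) (hd : 1 ≤ d)
    (T : TauFacts d) (lam : ℝ≥0) (H : Hyp d lam) (r : ℝ) (f : Eu d → ℝ≥0∞) (hf : Measurable f)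
    (hf1 : ∀ b, f b ≤ 1) (b : ℝ≥0)
    (ha : ∀ x : Eu d, ‖x‖ ≤ r → wt lam (bal 0 r ∩ bal x (sr r x)) f x ≤ b * Fr r x) :
    ∀ x : Eu d, ‖x‖ ≤ r →
      wt lam (bal 0 r) f x ≤ ((b / gd d : ℝ≥0) : ℝ≥0∞) * Fr r x := by
  obtain ⟨S1, -, -, -, -, -⟩ := hS d hd T
  have hV : Dom (bal (0 : Eu d) r) := dom_bal 0 r
  have hmem : ∀ x : Eu d, x ∈ bal (0 : Eu d) r ↔ ‖x‖ ≤ r := fun x => by
    unfold bal
    rw [Metric.mem_closedBall, dist_zero_right]
  have hvol : volume (bal (0 : Eu d) r) ≠ ∞ := hV.2.measure_lt_top.ne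
  have htop : 1 + (lam : ℝ≥0∞) * volume (bal (0 : Eu d) r) ≠ ∞ :=
    ENNReal.add_ne_top.2 ⟨ENNReal.one_ne_top, ENNReal.mul_ne_top ENNReal.coe_ne_top hvol⟩
  have key := hC d (bal 0 r) (wt lam (bal 0 r) f) (Fr r)
    (fun x => wt lam (bal 0 r ∩ bal x (sr r x)) f x) (fun x y => ex lam (sr r x) y) (gd d) b
    (1 + (lam : ℝ≥0∞) * volume (bal (0 : Eu d) r)).toNNReal 1 (gd_pos hd) (gd_le_one hd)
    one_pos
    (fun x _ => by
      rw [ENNReal.coe_toNNReal htop]
      exact wt_le T lam hV hf1 x)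
    (fun x hx => by
      refine ⟨?_, ?_⟩
      · rw [ENNReal.coe_one]
        exact one_le_Fr ((hmem x).1 hx)
      · rw [Fr_eq ((hmem x).1 hx)]
        exact ENNReal.ofReal_ne_top)
    (fun x _ => S1 lam (bal 0 r) f x (sr r x) hV hf (sr_nonneg r x))
    (fun x hx => by
      refine le_trans ?_ (hT d hd T lam H r x ((hmem x).1 hx))
      refine lintegral_mono fun y => ?_
      gcongr
      calc ind (x + y ∈ bal (0 : Eu d) r) * Fr r (x + y) ≤ 1 * Fr r (x + y) := by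
            gcongr; exact ind_le_one _
        _ = Fr r (x + y) := one_mul _)
    (fun x hx => ha x ((hmem x).1 hx))
  intro x hx
  exact key x ((hmem x).2 hx)

theorem vol_zero (hd : 1 ≤ d) (lam : ℝ≥0) : vol d lam 0 = 1 := by
  unfold vol wt
  have h0 : volume (bal (0 : Eu d) 0) = 0 := by
    have : Nontrivial (Eu d) := by
      have : Nonempty (Fin d) := ⟨⟨0, by omega⟩⟩
      infer_instance
    unfold bal
    rw [Metric.closedBall_zero]
    exact measure_singleton 0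
  rw [setLIntegral_measure_zero _ _ h0, mul_zero, add_zero]

theorem coe_inv_gd (b : ℝ≥0) :
    ((b / gd d : ℝ≥0) : ℝ≥0∞) = b * (6400 * (d : ℝ≥0∞)) := by
  unfold gd
  have h1 : b / (1 / (6400 * (d : ℝ≥0))) = b * (6400 * (d : ℝ≥0)) := by
    rw [div_div_eq_mul_div, div_one]
  rw [h1]
  push_cast
  rfl

theorem vol_aux (hS : SlbStatement) (hT : StepStatement) (hC : ComparStatement) (hd : 1 ≤ d)
    (T : TauFacts d) (lam : ℝ≥0) (H : Hyp d lam) :
    ∀ (n : ℕ) (r : ℝ) (x : Eu d), r < 2 ^ (n + 1) → ‖x‖ ≤ r →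
      wt lam (bal 0 r) (fun _ => 1) x
        ≤ (6400 * (d : ℝ≥0∞)) ^ (n + 1) * ENNReal.ofReal (Real.sqrt (r + 3 - ‖x‖)) := by
  obtain ⟨-, -, -, -, S5, S6⟩ := hS d hd T
  have h64 : (1 : ℝ≥0∞) ≤ 6400 * (d : ℝ≥0∞) := by
    have h1 : (1 : ℝ≥0∞) ≤ d := by exact_mod_cast hd
    calc (1 : ℝ≥0∞) = 1 * 1 := (one_mul 1).symm
      _ ≤ 6400 * d := mul_le_mul' (by norm_num) h1
  intro n
  induction n with
  | zero =>
    intro r x hr hx
    have hb : ∀ x : Eu d, ‖x‖ ≤ r →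
        wt lam (bal 0 r ∩ bal x (sr r x)) (fun _ => 1) x ≤ ((1 : ℝ≥0) : ℝ≥0∞) * Fr r x := by
      intro x hx
      have hs : sr r x = 0 := by
        unfold sr
        rw [if_pos]
        have := norm_nonneg x
        norm_num at hr
        linarith
      rw [hs]
      calc wt lam (bal 0 r ∩ bal x 0) (fun _ => 1) x ≤ wt lam (bal x 0) (fun _ => 1) x :=
            S6 lam _ x _ _ ((dom_bal _ _).inter (dom_bal _ _)) (dom_bal _ _) inter_subset_right
        _ = 1 := by rw [S5 lam x 0 le_rfl, vol_zero hd]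
        _ ≤ Fr r x := one_le_Fr hx
        _ = ((1 : ℝ≥0) : ℝ≥0∞) * Fr r x := by rw [ENNReal.coe_one, one_mul]
    have := compar_step hS hT hC hd T lam H r (fun _ => 1) measurable_const (fun _ => le_rfl) 1 hb x hx
    rw [coe_inv_gd, Fr_eq hx, ENNReal.coe_one, one_mul] at this
    rw [zero_add, pow_one]
    exact this
  | succ n ih =>
    intro r x hr hx
    have hb : ∀ x : Eu d, ‖x‖ ≤ r →
        wt lam (bal 0 r ∩ bal x (sr r x)) (fun _ => 1) x ≤
          (((6400 * (d : ℝ≥0)) ^ (n + 1) : ℝ≥0) : ℝ≥0∞) * Fr r x := by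
      intro x hx
      have hle : wt lam (bal 0 r ∩ bal x (sr r x)) (fun _ => 1) x ≤ vol d lam (sr r x) := by
        rw [← S5 lam x _ (sr_nonneg r x)]
        exact S6 lam _ x _ _ ((dom_bal _ _).inter (dom_bal _ _)) (dom_bal _ _) inter_subset_right
      refine hle.trans ?_
      push_cast
      by_cases h2 : r - ‖x‖ < 2
      · have hs : sr r x = 0 := by
          unfold sr
          rw [if_pos h2]
        rw [hs, vol_zero hd]
        calc (1 : ℝ≥0∞) = 1 * 1 := (one_mul 1).symm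
          _ ≤ (6400 * (d : ℝ≥0∞)) ^ (n + 1) * Fr r x :=
            mul_le_mul' (one_le_pow₀ h64) (one_le_Fr hx)
      · have hs : sr r x = (r - ‖x‖) / 2 := by
          unfold sr
          rw [if_neg h2]
        rw [hs]
        push Not at h2
        have hnx := norm_nonneg x
        have hr2 : (r - ‖x‖) / 2 < 2 ^ (n + 1) := by
          have : (2 : ℝ) ^ (n + 1 + 1) = 2 * 2 ^ (n + 1) := by ring
          rw [this] at hr
          linarith
        have h3 := ih ((r - ‖x‖) / 2) 0 hr2 (by rw [norm_zero]; linarith)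
        rw [norm_zero, sub_zero] at h3
        unfold vol
        refine h3.trans ?_
        rw [Fr_eq hx]
        gcongr
        linarith
    have := compar_step hS hT hC hd T lam H r (fun _ => 1) measurable_const (fun _ => le_rfl) _ hb x hx
    rw [coe_inv_gd, Fr_eq hx] at this
    refine this.trans (le_of_eq ?_)
    push_cast
    rw [pow_succ _ (n + 1)]

/-- Module VOL -/
theorem vol (hS : SlbStatement) (hT : StepStatement) (hC : ComparStatement) : VolStatement := by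
  intro d hd T lam H
  have haux := vol_aux hS hT hC hd T lam H
  refine ⟨haux, fun n => ?_⟩
  have h1 := haux n (2 ^ n) 0 (by
    rw [pow_succ]
    have : (0 : ℝ) < 2 ^ n := by positivity
    linarith) (by rw [norm_zero]; positivity)
  rw [norm_zero, sub_zero] at h1
  unfold MP_5349a4_pr.vol
  refine h1.trans ?_
  have h2 : ENNReal.ofReal (Real.sqrt (2 ^ n + 3)) ≤ 2 ^ (n + 1) := by
    have h3 : Real.sqrt (2 ^ n + 3) ≤ 2 ^ (n + 1) := by
      rw [Real.sqrt_le_left (by positivity)]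
      have h4 : (1 : ℝ) ≤ 2 ^ n := one_le_pow₀ (by norm_num)
      have h5 : ((2 : ℝ) ^ (n + 1)) ^ 2 = 4 * (2 ^ n * 2 ^ n) := by ring
      rw [h5]
      nlinarith
    calc ENNReal.ofReal (Real.sqrt (2 ^ n + 3)) ≤ ENNReal.ofReal (2 ^ (n + 1)) :=
          ENNReal.ofReal_le_ofReal h3
      _ = 2 ^ (n + 1) := by
        rw [ENNReal.ofReal_pow (by norm_num)]
        norm_num
  calc (6400 * (d : ℝ≥0∞)) ^ (n + 1) * ENNReal.ofReal (Real.sqrt (2 ^ n + 3))
      ≤ (6400 * (d : ℝ≥0∞)) ^ (n + 1) * 2 ^ (n + 1) := by gcongr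
    _ = (Gam d : ℝ≥0∞) ^ (n + 1) := by
      rw [← mul_pow]
      congr 1
      unfold Gam
      push_cast
      ring

theorem sqrt_le_two_pow (i : ℕ) : ENNReal.ofReal (Real.sqrt (2 ^ i + 3)) ≤ 2 ^ (i + 1) := by
  have h3 : Real.sqrt (2 ^ i + 3) ≤ 2 ^ (i + 1) := by
    rw [Real.sqrt_le_left (by positivity)]
    have h4 : (1 : ℝ) ≤ 2 ^ i := one_le_pow₀ (by norm_num)
    have h5 : ((2 : ℝ) ^ (i + 1)) ^ 2 = 4 * (2 ^ i * 2 ^ i) := by ring
    rw [h5]
    nlinarith
  calc ENNReal.ofReal (Real.sqrt (2 ^ i + 3)) ≤ ENNReal.ofReal (2 ^ (i + 1)) :=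
        ENNReal.ofReal_le_ofReal h3
    _ = 2 ^ (i + 1) := by
      rw [ENNReal.ofReal_pow (by norm_num)]
      norm_num

/-- Module DEP -/
theorem dep (hS : SlbStatement) (hT : StepStatement) (hC : ComparStatement)
    (hVol : VolStatement) : DepStatement := by
  intro d hd T lam H i s hs
  obtain ⟨S1, S2, -, -, S5, S6⟩ := hS d hd T
  obtain ⟨v1, v2⟩ := hVol d hd T lam H
  have hk1 : (1 : ℝ) ≤ 2 ^ i := one_le_pow₀ (by norm_num)
  have hG1 : (1 : ℝ≥0∞) ≤ Gam d := by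
    have : (1 : ℝ≥0) ≤ Gam d := by
      unfold Gam
      have hd' : (1 : ℝ≥0) ≤ d := by exact_mod_cast hd
      calc (1 : ℝ≥0) ≤ 12800 * 1 := by norm_num
        _ ≤ 12800 * d := by gcongr
    exact_mod_cast this
  have h64 : (1 : ℝ≥0∞) ≤ 6400 * (d : ℝ≥0∞) := by
    have h1 : (1 : ℝ≥0∞) ≤ d := by exact_mod_cast hd
    calc (1 : ℝ≥0∞) = 1 * 1 := (one_mul 1).symm
      _ ≤ 6400 * d := mul_le_mul' (by norm_num) h1
  have hf : Measurable (fun b : Eu d => ind (s - ‖b‖ < 2 ^ i)) := by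
    apply measurable_ind
    exact measurableSet_lt (by fun_prop) measurable_const
  unfold MP_5349a4_pr.dep
  by_cases hsk : s ≤ 2 ^ i
  · calc wt lam (bal (0 : Eu d) s) (fun b => ind (s - ‖b‖ < 2 ^ i)) 0
        ≤ wt lam (bal (0 : Eu d) s) (fun _ => 1) 0 := wt_mono_f lam _ (fun _ => ind_le_one _) 0
      _ ≤ wt lam (bal (0 : Eu d) (2 ^ i)) (fun _ => 1) 0 := by
        apply S6 lam _ 0 _ _ (dom_bal _ _) (dom_bal _ _)
        exact Metric.closedBall_subset_closedBall hsk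
      _ ≤ (Gam d : ℝ≥0∞) ^ (i + 1) := v2 i
      _ ≤ (Gam d : ℝ≥0∞) ^ (i + 3) := pow_le_pow_right₀ hG1 (by omega)
  push Not at hsk
  set f : Eu d → ℝ≥0∞ := fun b => ind (s - ‖b‖ < 2 ^ i) with hfdef
  have hf1 : ∀ b, f b ≤ 1 := fun b => ind_le_one _
  have hf0 : ∀ b : Eu d, 2 ^ i ≤ s - ‖b‖ → f b = 0 := fun b hb => ind_not (not_lt.2 hb)
  have ha : ∀ x : Eu d, ‖x‖ ≤ s → wt lam (bal 0 s ∩ bal x (sr s x)) f x ≤
      (((6400 * (d : ℝ≥0)) ^ (i + 1) : ℝ≥0) : ℝ≥0∞) * Fr s x := by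
    intro x hx
    have hle : wt lam (bal 0 s ∩ bal x (sr s x)) f x ≤ MP_5349a4_pr.vol d lam (sr s x) := by
      calc wt lam (bal 0 s ∩ bal x (sr s x)) f x ≤ wt lam (bal x (sr s x)) f x :=
            S6 lam _ x _ _ ((dom_bal _ _).inter (dom_bal _ _)) (dom_bal _ _) inter_subset_right
        _ ≤ wt lam (bal x (sr s x)) (fun _ => 1) x := wt_mono_f lam _ hf1 x
        _ = MP_5349a4_pr.vol d lam (sr s x) := S5 lam x _ (sr_nonneg s x)
    by_cases h2k : s - ‖x‖ < 2 * 2 ^ i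
    · refine hle.trans ?_
      push_cast
      by_cases h2 : s - ‖x‖ < 2
      · have hs : sr s x = 0 := by
          unfold sr
          rw [if_pos h2]
        rw [hs, vol_zero hd]
        calc (1 : ℝ≥0∞) = 1 * 1 := (one_mul 1).symm
          _ ≤ (6400 * (d : ℝ≥0∞)) ^ (i + 1) * Fr s x :=
            mul_le_mul' (one_le_pow₀ h64) (one_le_Fr hx)
      · have hs : sr s x = (s - ‖x‖) / 2 := by
          unfold sr
          rw [if_neg h2]
        rw [hs]
        push Not at h2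
        have hr2 : (s - ‖x‖) / 2 < 2 ^ (i + 1) := by
          have : (2 : ℝ) ^ (i + 1) = 2 * 2 ^ i := by ring
          rw [this]
          linarith
        have h3 := v1 i ((s - ‖x‖) / 2) 0 hr2 (by rw [norm_zero]; linarith)
        rw [norm_zero, sub_zero] at h3
        unfold MP_5349a4_pr.vol
        refine h3.trans ?_
        rw [Fr_eq hx]
        gcongr
        linarith
    · push Not at h2k
      have hs : sr s x = (s - ‖x‖) / 2 := by
        unfold sr
        rw [if_neg (by linarith)]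
      rw [hs]
      refine le_of_eq_of_le (wt_zero lam ((dom_bal _ _).inter (dom_bal _ _)) (hf0 x (by linarith))
        (fun b hb => hf0 b ?_)) zero_le
      have h1 : dist b x ≤ (s - ‖x‖) / 2 := hb.2
      have h2 : ‖b‖ ≤ ‖x‖ + dist b x := by
        rw [dist_eq_norm]
        calc ‖b‖ = ‖x + (b - x)‖ := by congr 1; abel
          _ ≤ _ := norm_add_le _ _
      linarith
  have hcomp := compar_step hS hT hC hd T lam H s f hf hf1 _ ha
  have hsk0 : 0 ≤ s - 2 ^ i := by linarith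
  have h1 := S1 lam (bal 0 s) f 0 (s - 2 ^ i) (dom_bal _ _) hf hsk0
  have h2 : wt lam (bal (0 : Eu d) s ∩ bal 0 (s - 2 ^ i)) f 0 = 0 := by
    refine wt_zero lam ((dom_bal _ _).inter (dom_bal _ _)) (hf0 0 (by rw [norm_zero]; linarith))
      (fun b hb => hf0 b ?_)
    have h1 : dist b 0 ≤ s - 2 ^ i := hb.2
    rw [dist_zero_right] at h1
    linarith
  rw [h2, zero_add] at h1
  refine h1.trans ?_
  set c : ℝ≥0∞ := (6400 * (d : ℝ≥0∞)) ^ (i + 2) * ENNReal.ofReal (Real.sqrt (2 ^ i + 3)) with hc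
  have h3 : ∫⁻ y, ex lam (s - 2 ^ i) y * (ind (0 + y ∈ bal (0 : Eu d) s) * wt lam (bal 0 s) f (0 + y)) ≤
      ∫⁻ y : Eu d, ex lam (s - 2 ^ i) y * c := by
    refine lintegral_mono fun y => ?_
    by_cases hex : ex lam (s - 2 ^ i) y = 0
    · simp [hex]
    · obtain ⟨hy1, -⟩ := (S2 lam (s - 2 ^ i) hsk0).2.2 y hex
      refine mul_le_mul' le_rfl ?_
      rw [zero_add]
      by_cases hy : y ∈ bal (0 : Eu d) s
      · rw [ind_of hy, one_mul]
        have hys : ‖y‖ ≤ s := by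
          have : dist y 0 ≤ s := hy
          rwa [dist_zero_right] at this
        refine (hcomp y hys).trans ?_
        rw [coe_inv_gd, Fr_eq hys, hc]
        push_cast
        rw [← pow_succ]
        gcongr
        linarith
      · rw [ind_not hy, zero_mul]
        exact zero_le
  have h4 : ∫⁻ y : Eu d, ex lam (s - 2 ^ i) y * c = phi d lam (s - 2 ^ i) * c := by
    rw [lintegral_mul_const _ (S2 lam (s - 2 ^ i) hsk0).1]
    rfl
  have h5 : phi d lam (s - 2 ^ i) ≤ 2 := by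
    refine (H _ hsk0).trans ?_
    have : (gd d : ℝ≥0∞) ≤ 1 := by exact_mod_cast gd_le_one hd
    calc (1 : ℝ≥0∞) + gd d ≤ 1 + 1 := by gcongr
      _ = 2 := one_add_one_eq_two
  calc _ ≤ ∫⁻ y : Eu d, ex lam (s - 2 ^ i) y * c := h3
    _ = phi d lam (s - 2 ^ i) * c := h4
    _ ≤ 2 * ((6400 * (d : ℝ≥0∞)) ^ (i + 2) * 2 ^ (i + 1)) := by
      rw [hc]
      gcongr
      exact sqrt_le_two_pow i
    _ = (Gam d : ℝ≥0∞) ^ (i + 2) := by
      have : (Gam d : ℝ≥0∞) = 6400 * (d : ℝ≥0∞) * 2 := by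
        unfold Gam
        push_cast
        ring
      rw [this]
      generalize 6400 * (d : ℝ≥0∞) = A
      rw [mul_pow, pow_succ (2 : ℝ≥0∞) (i + 1)]
      ring
    _ ≤ (Gam d : ℝ≥0∞) ^ (i + 3) := pow_le_pow_right₀ hG1 (by omega)

end Pool.Agent.Lib.MP_5349a4_pr.H22
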